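import Pool.Agent.X67.DDC.Upper

/-!
# MP_db30a9_co, Q1: `m(n, d) = (2 n - 1) ^ (d / 3 + O(1))`

The lower bound is an algebraic construction. A word of the configuration has three blocks `x`,
`y`, `z` of about `d / 6` letters each, and `z` encodes the product `X(x) * Y(y)` in a prime field
with about `(2 n - 1) ^ (d / 6)` elements, where `X` is injective and `Y` is an additive code (a sum
of values which depend on the position and the letter) that is injective on the prefixes and on the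
suffixes of the chosen words `y`. The upper bound is the count of Kővári, Sós and Turán.
-/

set_option autoImplicit false

namespace Pool.Agent.Results.MP_db30a9_co.SharpOrder

open Pool.Agent.X67.DDC FreeGroup

theorem lower_maxDDC {n : ℕ} (hn : 2 ≤ n) {d : ℕ} (hd : 22 ≤ d) :
    (2 * n - 1) ^ (2 * ((d - 16) / 6)) ≤ 2 * maxDDC n d := by
  obtain ⟨D, h1, h2, h3⟩ := lower hn (k := (d - 16) / 6) (by omega)
  have h4 : DiamLE D d := fun g hg h hh => (h2 g hg h hh).trans (by omega)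
  have h5 := (maxDDC_bounds hn d).2 D h1 h4
  omega

/-- **Q1 has a positive answer**: for every `n ≥ 2` there is a constant `C` with
`|log_{2n-1} m(n, d) - d / 3| ≤ C` for all large `d`. -/
theorem result (n : ℕ) (hn : 2 ≤ n) :
    ∃ C : ℝ, ∀ᶠ d : ℕ in Filter.atTop,
      |Real.logb (2 * n - 1) (maxDDC n d) - d / 3| ≤ C := by
  have hnR : (2 : ℝ) ≤ n := by exact_mod_cast hn
  set q : ℝ := 2 * (n : ℝ) - 1 with hq
  have hq1 : 1 < q := by linarith
  have hq0 : 0 < q := by linarith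
  have hqc : ((2 * n - 1 : ℕ) : ℝ) = q := by
    rw [Nat.cast_sub (by omega)]
    push_cast
    rfl
  set A : ℝ := 3 * n + 9 * n ^ 2 with hA
  have hA1 : 1 ≤ A := by nlinarith
  refine ⟨9 + Real.logb q A, ?_⟩
  filter_upwards [Filter.eventually_ge_atTop 22] with d hd
  have hlogA : 0 ≤ Real.logb q A := Real.logb_nonneg hq1 hA1
  -- lower bound
  have h1 := lower_maxDDC hn hd
  have h2 : q ^ (2 * ((d - 16) / 6)) ≤ 2 * (maxDDC n d : ℝ) := by
    rw [← hqc]
    exact_mod_cast h1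
  have hpos : (0 : ℝ) < maxDDC n d := by
    have : 0 < q ^ (2 * ((d - 16) / 6)) := by positivity
    linarith
  have h3 : q ^ ((d : ℝ) / 3 - 8) ≤ maxDDC n d := by
    have e1 : q ^ ((d : ℝ) / 3 - 7) ≤ q ^ (2 * ((d - 16) / 6)) := by
      rw [← Real.rpow_natCast]
      apply Real.rpow_le_rpow_of_exponent_le hq1.le
      have : (d : ℝ) ≤ 3 * ((2 * ((d - 16) / 6) : ℕ) : ℝ) + 21 := by
        have : d ≤ 3 * (2 * ((d - 16) / 6)) + 21 := by omega
        exact_mod_cast this
      linarith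
    have e2 : q ^ ((d : ℝ) / 3 - 8) * 2 ≤ q ^ ((d : ℝ) / 3 - 7) := by
      have : q ^ ((d : ℝ) / 3 - 7) = q ^ ((d : ℝ) / 3 - 8) * q := by
        rw [← Real.rpow_add_one hq0.ne']
        congr 1
        ring
      rw [this]
      apply mul_le_mul_of_nonneg_left _ (by positivity)
      linarith
    linarith
  have h4 : (d : ℝ) / 3 - 8 ≤ Real.logb q (maxDDC n d) := by
    rw [Real.le_logb_iff_rpow_le hq1 hpos]
    exact h3
  -- upper bound
  have h5 : (maxDDC n d : ℝ) ≤ A * q ^ ((d : ℝ) / 3 + 1) := by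
    have e0 := (maxDDC_bounds hn d).1
    have e1 : (maxDDC n d : ℝ) ≤ 3 * n * q ^ ((d + 1) / 2 - (d + 1) / 2 / 3) +
        3 * n * q ^ ((d + 1) / 2 / 3) * (3 * n * q ^ ((d + 1) / 2 / 3)) := by
      rw [← hqc]
      exact_mod_cast e0
    have e2 : q ^ ((d + 1) / 2 - (d + 1) / 2 / 3) ≤ q ^ ((d : ℝ) / 3 + 1) := by
      rw [← Real.rpow_natCast]
      apply Real.rpow_le_rpow_of_exponent_le hq1.le
      have : 3 * (((d + 1) / 2 - (d + 1) / 2 / 3 : ℕ) : ℝ) ≤ d + 3 := by
        have : 3 * ((d + 1) / 2 - (d + 1) / 2 / 3) ≤ d + 3 := by omega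
        exact_mod_cast this
      linarith
    have e3 : q ^ ((d + 1) / 2 / 3) * q ^ ((d + 1) / 2 / 3) ≤ q ^ ((d : ℝ) / 3 + 1) := by
      rw [← pow_add, ← Real.rpow_natCast]
      apply Real.rpow_le_rpow_of_exponent_le hq1.le
      have : 3 * (((d + 1) / 2 / 3 + (d + 1) / 2 / 3 : ℕ) : ℝ) ≤ d + 3 := by
        have : 3 * ((d + 1) / 2 / 3 + (d + 1) / 2 / 3) ≤ d + 3 := by omega
        exact_mod_cast this
      linarith
    calc (maxDDC n d : ℝ) ≤ 3 * n * q ^ ((d + 1) / 2 - (d + 1) / 2 / 3) +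
          3 * n * q ^ ((d + 1) / 2 / 3) * (3 * n * q ^ ((d + 1) / 2 / 3)) := e1
      _ = 3 * n * q ^ ((d + 1) / 2 - (d + 1) / 2 / 3) +
          9 * n ^ 2 * (q ^ ((d + 1) / 2 / 3) * q ^ ((d + 1) / 2 / 3)) := by ring
      _ ≤ 3 * n * q ^ ((d : ℝ) / 3 + 1) + 9 * n ^ 2 * q ^ ((d : ℝ) / 3 + 1) :=
          add_le_add (mul_le_mul_of_nonneg_left e2 (by positivity))
            (mul_le_mul_of_nonneg_left e3 (by positivity))
      _ = A * q ^ ((d : ℝ) / 3 + 1) := by rw [hA]; ring
  have h6 : Real.logb q (maxDDC n d) ≤ Real.logb q A + ((d : ℝ) / 3 + 1) := by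
    have e1 := Real.logb_le_logb_of_le hq1 hpos h5
    rw [Real.logb_mul (by positivity) (by positivity), Real.logb_rpow hq0 hq1.ne'] at e1
    exact e1
  rw [abs_le]
  constructor
  · linarith
  · linarith

end Pool.Agent.Results.MP_db30a9_co.SharpOrder
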